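import Pool.Agent.Helper58.PB.StM

/-!
# Project PB, module RWB: `RW` as a sum over a box
-/

set_option autoImplicit false

namespace Pool.Agent.Helper7.PB

open Finset
open Pool.Agent.Helper58.PB
open Pool.Agent.Helper48.BK (win thd)

private theorem inner_RWB (f g k : ℕ → ℝ) (Z h a b c : ℕ) (d : ℤ) (hc : 1 ≤ c)
    (hd : |d| ≤ 10 * h) (hh : 1 ≤ h) (hcZ' : 28 * h ≤ c * Z) (n m : ℕ) :
    (∑ l ∈ Ioc 0 Z, if (a : ℤ) * n + (b : ℤ) * m + (-(c : ℤ)) * l = d then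
      win f 8 9 h a n * win g 8 9 h b m * win k 6 28 h c l else 0) =
    if 8 * h < a * n ∧ a * n ≤ 9 * h ∧ 8 * h < b * m ∧ b * m ≤ 9 * h ∧
      (c : ℤ) ∣ a * n + b * m - d then f n * g m * k (thd a b c d (n, m)).toNat else 0 := by
  by_cases hn : 8 * h < a * n ∧ a * n ≤ 9 * h
  swap
  · rw [if_neg (fun h => hn ⟨h.1, h.2.1⟩)]
    apply Finset.sum_eq_zero
    intro l _
    have : win f 8 9 h a n = 0 := by rw [win, if_neg hn]
    rw [this]
    simp
  by_cases hm : 8 * h < b * m ∧ b * m ≤ 9 * h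
  swap
  · rw [if_neg (fun h => hm ⟨h.2.2.1, h.2.2.2.1⟩)]
    apply Finset.sum_eq_zero
    intro l _
    have : win g 8 9 h b m = 0 := by rw [win, if_neg hm]
    rw [this]
    simp
  have hwn : win f 8 9 h a n = f n := by rw [win, if_pos hn]
  have hwm : win g 8 9 h b m = g m := by rw [win, if_pos hm]
  obtain ⟨hd1, hd2⟩ := abs_le.mp hd
  have hn1 : (8 : ℤ) * h < a * n := by exact_mod_cast hn.1
  have hn2 : (a : ℤ) * n ≤ 9 * h := by exact_mod_cast hn.2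
  have hm1 : (8 : ℤ) * h < b * m := by exact_mod_cast hm.1
  have hm2 : (b : ℤ) * m ≤ 9 * h := by exact_mod_cast hm.2
  have hcZ : (0 : ℤ) < c := by exact_mod_cast hc
  by_cases hdv : (c : ℤ) ∣ a * n + b * m - d
  swap
  · rw [if_neg (fun h => hdv h.2.2.2.2)]
    apply Finset.sum_eq_zero
    intro l _
    rw [if_neg]
    intro h
    apply hdv
    exact ⟨l, by linear_combination h⟩
  rw [if_pos ⟨hn.1, hn.2, hm.1, hm.2, hdv⟩]
  obtain ⟨w, hw⟩ := hdv
  have hthd : thd a b c d (n, m) = w := by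
    simp only [thd]
    rw [hw]
    exact Int.mul_ediv_cancel_left w hcZ.ne'
  have hh1 : (1 : ℤ) ≤ h := by exact_mod_cast hh
  have hwpos : 0 < w := by
    have : (0 : ℤ) < c * w := by
      rw [← hw]
      linarith
    exact (mul_pos_iff_of_pos_left hcZ).mp this
  obtain ⟨l0, rfl⟩ : ∃ l0 : ℕ, w = l0 := ⟨w.toNat, (Int.toNat_of_nonneg hwpos.le).symm⟩
  have hl0 : 0 < l0 := by exact_mod_cast hwpos
  have hlX : l0 ≤ Z := by
    have h1 : (c : ℤ) * l0 ≤ c * Z := by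
      rw [← hw]
      have : (28 : ℤ) * h ≤ c * Z := by exact_mod_cast hcZ'
      linarith
    have := le_of_mul_le_mul_left h1 hcZ
    exact_mod_cast this
  have hwl : win k 6 28 h c l0 = k l0 := by
    rw [win, if_pos]
    have h1 : (6 : ℤ) * h < c * l0 := by rw [← hw]; linarith
    have h2 : (c : ℤ) * l0 ≤ 28 * h := by rw [← hw]; linarith
    exact ⟨by exact_mod_cast h1, by exact_mod_cast h2⟩
  rw [hthd, Int.toNat_natCast]
  rw [Finset.sum_eq_single l0]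
  · rw [if_pos (by linear_combination hw), hwn, hwm, hwl]
  · intro l _ hne
    rw [if_neg]
    intro h
    apply hne
    have h1 : (c : ℤ) * l = c * l0 := by linear_combination hw - h
    have := mul_left_cancel₀ hcZ.ne' h1
    exact_mod_cast this
  · intro h
    exact absurd (mem_Ioc.mpr ⟨hl0, hlX⟩) h

private theorem mem_win_RWB (a h X n : ℕ) (ha : 1 ≤ a) (haX : 28 * h ≤ a * X) :
    (n ∈ Ioc 0 X ∧ 8 * h < a * n ∧ a * n ≤ 9 * h) ↔
      n ∈ Ioc (8 * h / a) (8 * h / a + (9 * h / a - 8 * h / a)) := by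
  have hle : 8 * h / a ≤ 9 * h / a := Nat.div_le_div_right (by omega)
  rw [Nat.add_sub_cancel' hle, mem_Ioc, mem_Ioc]
  have ha0 : 0 < a := ha
  constructor
  · rintro ⟨_, h1, h2⟩
    refine ⟨?_, ?_⟩
    · rw [Nat.div_lt_iff_lt_mul ha0, mul_comm n a]
      exact h1
    · rw [Nat.le_div_iff_mul_le ha0, mul_comm n a]
      exact h2
  · rintro ⟨h1, h2⟩
    rw [Nat.div_lt_iff_lt_mul ha0, mul_comm n a] at h1
    rw [Nat.le_div_iff_mul_le ha0, mul_comm n a] at h2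
    refine ⟨⟨?_, ?_⟩, h1, h2⟩
    · rcases Nat.eq_zero_or_pos n with h0 | h0
      · subst h0; simp at h1
      · exact h0
    · exact le_of_mul_le_mul_left (by omega : a * n ≤ a * X) ha0

theorem hRwb : StRwb := by
  intro f g k X Y Z h a b c d ha hb hc hh hd haX hbY hcZ
  have e1 : RW f g k X Y Z h a b c d = ∑ n ∈ Ioc 0 X, ∑ m ∈ Ioc 0 Y,
      if 8 * h < a * n ∧ a * n ≤ 9 * h ∧ 8 * h < b * m ∧ b * m ≤ 9 * h ∧
      (c : ℤ) ∣ a * n + b * m - d then f n * g m * k (thd a b c d (n, m)).toNat else 0 := by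
    rw [RW, T3]
    apply Finset.sum_congr rfl
    intro n _
    apply Finset.sum_congr rfl
    intro m _
    exact inner_RWB f g k Z h a b c d hc hd hh hcZ n m
  rw [e1, ← Finset.sum_product' (s := Ioc 0 X) (t := Ioc 0 Y) (f := fun n m =>
      if 8 * h < a * n ∧ a * n ≤ 9 * h ∧ 8 * h < b * m ∧ b * m ≤ 9 * h ∧
      (c : ℤ) ∣ a * n + b * m - d then f n * g m * k (thd a b c d (n, m)).toNat else 0)]
  rw [← Finset.sum_filter]
  have e2 : ((Ioc 0 X) ×ˢ (Ioc 0 Y)).filter (fun v : ℕ × ℕ => 8 * h < a * v.1 ∧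
      a * v.1 ≤ 9 * h ∧ 8 * h < b * v.2 ∧ b * v.2 ≤ 9 * h ∧
      (c : ℤ) ∣ a * v.1 + b * v.2 - d) =
      Bx a b c d (8 * h / a) (9 * h / a - 8 * h / a) (8 * h / b) (9 * h / b - 8 * h / b) := by
    ext ⟨n, m⟩
    rw [Bx, mem_filter, mem_filter, mem_product, mem_product]
    have h1 := mem_win_RWB a h X n ha haX
    have h2 := mem_win_RWB b h Y m hb hbY
    constructor
    · rintro ⟨⟨h3, h4⟩, h5, h6, h7, h8, h9⟩
      exact ⟨⟨h1.mp ⟨h3, h5, h6⟩, h2.mp ⟨h4, h7, h8⟩⟩, h9⟩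
    · rintro ⟨⟨h3, h4⟩, h9⟩
      obtain ⟨h5, h6, h7⟩ := h1.mpr h3
      obtain ⟨h8, h10, h11⟩ := h2.mpr h4
      exact ⟨⟨h5, h8⟩, h6, h7, h10, h11, h9⟩
  rw [e2]

end Pool.Agent.Helper7.PB
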